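import Pool.Agent.Helper25.LS.Defs2

/-! # LS, packet BK: Euclidean distances of subspaces of a block -/

set_option autoImplicit false

open Filter Topology Module
open scoped ENNReal NNReal

noncomputable section

namespace Pool.Agent.Helper15.LS

open Pool.Agent.Helper25.LS

theorem pow_sum_le {ι : Type} [Fintype ι] (b : ι → ℝ) (hb : ∀ i, 0 ≤ b i) (r : ℝ) (hr : 1 ≤ r) :
    ∑ i, b i ^ r ≤ (∑ i, b i) ^ r := by
  classical
  set S := ∑ i, b i with hS
  have hS0 : 0 ≤ S := Finset.sum_nonneg (fun i _ => hb i)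
  rcases hS0.eq_or_lt with h0 | h0
  · have : ∀ i, b i = 0 := by
      intro i
      have := (Finset.sum_eq_zero_iff_of_nonneg (fun i _ => hb i)).1 h0.symm i (Finset.mem_univ i)
      exact this
    have h1 : ∑ i, b i ^ r = 0 := by
      refine Finset.sum_eq_zero fun i _ => ?_
      rw [this i, Real.zero_rpow (by linarith)]
    rw [h1]; exact Real.rpow_nonneg hS0 _
  · have h1 : ∀ i, b i ^ r ≤ b i * S ^ (r - 1) := by
      intro i
      rcases (hb i).eq_or_lt with h2 | h2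
      · rw [← h2, Real.zero_rpow (by linarith)]; simp
      · have e : b i ^ r = b i * b i ^ (r - 1) := by
          conv_lhs => rw [show r = 1 + (r - 1) by ring, Real.rpow_add h2, Real.rpow_one]
        rw [e]
        refine mul_le_mul_of_nonneg_left ?_ h2.le
        exact Real.rpow_le_rpow h2.le (Finset.single_le_sum (fun j _ => hb j) (Finset.mem_univ i))
          (by linarith)
    calc ∑ i, b i ^ r ≤ ∑ i, b i * S ^ (r - 1) := Finset.sum_le_sum fun i _ => h1 i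
      _ = S * S ^ (r - 1) := by rw [← Finset.sum_mul]
      _ = S ^ r := by
          conv_rhs => rw [show r = 1 + (r - 1) by ring, Real.rpow_add h0, Real.rpow_one]

/-- the Euclidean norm on a block -/
def eu {t : ℝ≥0} {N : ℕ} (x : Blk t N) : EuclideanSpace ℂ (Fin N) := WithLp.toLp 2 (fun i => x i)

theorem eu_norm_sq {t : ℝ≥0} {N : ℕ} (x : Blk t N) : ‖eu x‖ ^ 2 = ∑ i, ‖x i‖ ^ 2 := by
  rw [EuclideanSpace.norm_sq_eq]; rfl

theorem toReal_p (t : ℝ≥0) : ((2 : ℝ≥0∞) + (t : ℝ≥0∞)).toReal = 2 + (t : ℝ) := by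
  rw [ENNReal.toReal_add (by norm_num) (by simp)]; simp

theorem blk_norm {t : ℝ≥0} {N : ℕ} (x : Blk t N) :
    ‖x‖ = (∑ i, ‖x i‖ ^ (2 + (t : ℝ))) ^ (1 / (2 + (t : ℝ))) := by
  have ht : 0 ≤ (t : ℝ) := t.2
  have := PiLp.norm_eq_sum (p := 2 + (t : ℝ≥0∞)) (β := fun _ : Fin N => ℂ)
    (by rw [toReal_p]; linarith) x
  rw [toReal_p] at this
  exact this

theorem sq_rpow (a p : ℝ) (ha : 0 ≤ a) : (a ^ 2) ^ (p / 2) = a ^ p := by
  rw [← Real.rpow_natCast a 2, ← Real.rpow_mul ha]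
  congr 1
  push_cast; ring

theorem blk_le_eu {t : ℝ≥0} {N : ℕ} (x : Blk t N) : ‖x‖ ≤ ‖eu x‖ := by
  have ht : 0 ≤ (t : ℝ) := t.2
  have hp : 0 < 2 + (t : ℝ) := by linarith
  rw [blk_norm]
  have h1 := pow_sum_le (fun i => ‖x i‖ ^ 2) (fun i => by positivity) ((2 + (t : ℝ)) / 2)
    (by linarith)
  have h2 : ∑ i, ‖x i‖ ^ (2 + (t : ℝ)) ≤ ‖eu x‖ ^ (2 + (t : ℝ)) := by
    rw [← sq_rpow ‖eu x‖ _ (norm_nonneg _), eu_norm_sq]
    refine le_trans (le_of_eq ?_) h1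
    exact Finset.sum_congr rfl fun i _ => (sq_rpow _ _ (norm_nonneg _)).symm
  calc (∑ i, ‖x i‖ ^ (2 + (t : ℝ))) ^ (1 / (2 + (t : ℝ)))
      ≤ (‖eu x‖ ^ (2 + (t : ℝ))) ^ (1 / (2 + (t : ℝ))) :=
        Real.rpow_le_rpow (Finset.sum_nonneg fun i _ => Real.rpow_nonneg (norm_nonneg _) _) h2
          (by positivity)
    _ = ‖eu x‖ := by
        rw [← Real.rpow_mul (norm_nonneg _), mul_one_div_cancel hp.ne', Real.rpow_one]

theorem eu_le_blk {t : ℝ≥0} {N : ℕ} (hN : 1 ≤ N) (x : Blk t N) :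
    ‖eu x‖ ≤ (N : ℝ) ^ (1 / 2 - 1 / (2 + (t : ℝ))) * ‖x‖ := by
  have ht : 0 ≤ (t : ℝ) := t.2
  have hp : 0 < 2 + (t : ℝ) := by linarith
  have hN0 : (0 : ℝ) < N := by exact_mod_cast hN
  have h1 := Real.rpow_sum_le_const_mul_sum_rpow_of_nonneg (s := Finset.univ)
    (f := fun i : Fin N => ‖x i‖ ^ 2) (p := (2 + (t : ℝ)) / 2) (by linarith)
    (fun i _ => by positivity)
  rw [← eu_norm_sq, sq_rpow _ _ (norm_nonneg _), Finset.card_univ, Fintype.card_fin,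
    Finset.sum_congr rfl (fun i _ => sq_rpow _ _ (norm_nonneg _))] at h1
  rw [blk_norm]
  set T := ∑ i, ‖x i‖ ^ (2 + (t : ℝ)) with hT
  have hT0 : 0 ≤ T := Finset.sum_nonneg fun i _ => Real.rpow_nonneg (norm_nonneg _) _
  calc ‖eu x‖ = (‖eu x‖ ^ (2 + (t : ℝ))) ^ (1 / (2 + (t : ℝ))) := by
        rw [← Real.rpow_mul (norm_nonneg _), mul_one_div_cancel hp.ne', Real.rpow_one]
    _ ≤ ((N : ℝ) ^ ((2 + (t : ℝ)) / 2 - 1) * T) ^ (1 / (2 + (t : ℝ))) :=
        Real.rpow_le_rpow (Real.rpow_nonneg (norm_nonneg _) _) h1 (by positivity)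
    _ = (N : ℝ) ^ (1 / 2 - 1 / (2 + (t : ℝ))) * T ^ (1 / (2 + (t : ℝ))) := by
        rw [Real.mul_rpow (Real.rpow_nonneg hN0.le _) hT0, ← Real.rpow_mul hN0.le]
        congr 2
        field_simp

theorem eu_add {t : ℝ≥0} {N : ℕ} (x y : Blk t N) : eu (x + y) = eu x + eu y := rfl
theorem eu_sub {t : ℝ≥0} {N : ℕ} (x y : Blk t N) : eu (x - y) = eu x - eu y := rfl
theorem eu_smul {t : ℝ≥0} {N : ℕ} (a : ℂ) (x : Blk t N) : eu (a • x) = a • eu x := rfl

/-- BK. -/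
theorem bk (h1 : S_EQ) : S_BK := by
  intro t N n hN E hE _
  refine h1 (Blk t N) E _ (fun y => ‖eu (y : Blk t N)‖) (fun y => ⟨?_, ?_⟩) (fun y z => ?_)
    (fun a y => ?_) (fun y z => ?_) (Real.rpow_nonneg (Nat.cast_nonneg _) _)
  · exact blk_le_eu _
  · exact eu_le_blk hN _
  · simp only [Submodule.coe_add, eu_add]; exact norm_add_le _ _
  · simp only [Submodule.coe_smul, eu_smul]; exact norm_smul _ _
  · simp only [Submodule.coe_add, Submodule.coe_sub, eu_add, eu_sub]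
    have h := parallelogram_law_with_norm ℂ (eu (y : Blk t N)) (eu (z : Blk t N))
    simpa only [pow_two] using h

end Pool.Agent.Helper15.LS
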