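import Pool.Agent.Helper25.LS.Defs

/-! # LS, packet LI: lifts of vectors and functionals -/

set_option autoImplicit false

open Filter Topology Module

noncomputable section

namespace Pool.Agent.Helper15.LS

open Pool.Agent.Helper25.LS

/-- LI. -/
theorem li (h1 : S_LV) (h2 : S_LF) : S_LI := by
  intro X _ _ U Y _ _ D H _ _ _ Φ
  choose σ hσ bσ using fun u : H => h1 X U Y D (Φ.symm u)
  choose τ bτ hτ using fun u : H => h2 X U Y D H Φ ((innerSL ℂ u) ∘L (Φ : Y →L[ℂ] H))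
  refine ⟨⟨σ, τ, hσ, bσ, fun u x => ?_, fun u => ⟨_, bτ u⟩⟩⟩
  have h3 := hτ u x
  have e : ((innerSL ℂ u) ∘L (Φ : Y →L[ℂ] H)) (D.π x) = inner ℂ u (Φ (D.π x)) := rfl
  rw [e] at h3
  exact h3

end Pool.Agent.Helper15.LS
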